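import Pool.Agent.Lib.helper32.NormalWL

set_option autoImplicit false

namespace Pool.Agent.Results.MP_90cb67_lc.Delta

open Filter Set Cardinal

/-- Internal subsets of the ultrapower `ℕ^ℕ / F`. -/
def Internal (F : Ultrafilter ℕ) (S : Set (Germ (F : Filter ℕ) ℕ)) : Prop :=
  ∃ A : ℕ → Set ℕ, S = {x | ∃ n : ℕ → ℕ, x = (n : Germ (F : Filter ℕ) ℕ) ∧ {i | n i ∈ A i} ∈ F}

/-- The partition cut `C_P`. -/
def cut (F : Ultrafilter ℕ) (P : ℕ → Set ℕ) : Set (Germ (F : Filter ℕ) ℕ) :=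
  {x | ∃ n : ℕ → ℕ, x = (n : Germ (F : Filter ℕ) ℕ) ∧ ∀ j, BddAbove (n '' P j)}

def L : ℕ → List ℕ → (List ℕ → Prop) → Prop
  | 0, t, X => X t
  | c + 1, t, X => ∀ᶠ x in hyperfilter ℕ, L c (x :: t) X

theorem l_and {X Y Z : List ℕ → Prop} (h : ∀ l, X l → Y l → Z l) :
    ∀ c t, L c t X → L c t Y → L c t Z
  | 0, t, a, b => h t a b
  | c + 1, _, a, b => (Eventually.and a b).mono fun _ e => l_and h c _ e.1 e.2

theorem l_or {X Y : List ℕ → Prop} : ∀ c t, L c t X → L c t (fun l => X l ∧ Y l) ∨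
    L c t fun l => X l ∧ ¬ Y l
  | 0, t, a => (em (Y t)).imp (fun e => ⟨a, e⟩) fun e => ⟨a, e⟩
  | c + 1, _, a => Ultrafilter.eventually_or.1 (Eventually.mono a fun _ e => l_or c _ e)

theorem l_down {X : List ℕ → Prop} {c d : ℕ} (h : c ≤ d) : ∀ t, L d t X → ∃ t, L c t X := by
  induction d, h using Nat.le_induction with
  | base => exact fun t a => ⟨t, a⟩
  | succ d _ ih => exact fun t a => let ⟨x, e⟩ := Eventually.exists a; ih _ e

theorem l_const : ∀ c t, L c t fun l => ∀ k, l.getD (k + c) 0 = t.getD k 0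
  | 0, _ => fun _ => rfl
  | c + 1, t => Eventually.of_forall fun x => l_and (fun l a _ k => by
      rw [show k + (c + 1) = k + 1 + c by omega, a]; rfl) c _ (l_const c (x :: t))
        (l_const c (x :: t))

theorem l_big (b c : ℕ) (t : List ℕ) : L (c + 1) t fun l => b < l.getD c 0 :=
  (show ∀ᶠ x in hyperfilter ℕ, b < x from hyperfilter_le_cofinite
    (by rw [Nat.cofinite_eq_atTop]; exact eventually_gt_atTop b)).mono fun x hx =>
      l_and (fun l a _ => by have := a 0; rw [zero_add] at this; rw [this]; exact hx) c _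
        (l_const c (x :: t)) (l_const c (x :: t))

abbrev I : Type := ℕ × List ℕ

def Pos (X : Set I) : Prop := ∀ c, ∃ j, c ≤ j ∧ ∃ t, L c t fun l => ((j, l) : I) ∈ X

def Sub (Y X : Set I) : Prop := ∃ m, ∀ i ∈ Y, m ≤ i.1 → i ∈ X

theorem Pos.sub {X Y : Set I} (h : Pos Y) (e : Sub Y X) : Pos X := fun c => by
  obtain ⟨m, hm⟩ := e
  obtain ⟨j, a1, t, a2⟩ := h (max c m)
  exact ⟨j, le_of_max_le_left a1, l_down (le_max_left c m) t
    (l_and (fun l a _ => hm _ a (le_of_max_le_right a1)) _ _ a2 a2)⟩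

theorem Pos.or {X : Set I} (h : Pos X) (Y : Set I) : Pos (X ∩ Y) ∨ Pos (X \ Y) := by
  by_contra! e
  obtain ⟨c, hc⟩ := not_forall.1 e.1
  obtain ⟨d, hd⟩ := not_forall.1 e.2
  obtain ⟨j, a1, t, a2⟩ := h (max c d)
  exact (l_or (Y := fun l => ((j, l) : I) ∈ Y) _ t a2).elim
    (fun f => hc ⟨j, le_of_max_le_left a1, l_down (le_max_left c d) t f⟩)
    fun f => hd ⟨j, le_of_max_le_right a1, l_down (le_max_right c d) t f⟩

theorem diag {Z : ℕ → Set I} (h : ∀ c b, ∃ j, b ≤ j ∧ ∃ t, L c t fun l => ((j, l) : I) ∈ Z c) :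
    ∃ Y, Pos Y ∧ ∀ k, ∃ m, ∀ i ∈ Y, m ≤ i.1 → ∃ c, k < c ∧ i ∈ Z c := by
  choose f f1 f2 using h
  let β : ℕ → ℕ := fun k => k.rec (f 0 0) fun k b => f (k + 1) (b + 1)
  have b1 : StrictMono β := strictMono_nat_of_lt_succ fun k => f1 _ _
  have b2 : ∀ c, ∃ t, L c t fun l => ((β c, l) : I) ∈ Z c := fun c => by
    cases c
    exacts [f2 0 0, f2 _ _]
  exact ⟨{i | ∃ c, β c = i.1 ∧ i ∈ Z c}, fun c => ⟨β c, b1.id_le c, (b2 c).imp fun t e =>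
    l_and (fun l a _ => ⟨c, rfl, a⟩) _ _ e e⟩, fun k => ⟨β k + 1, fun i ⟨c, a1, a2⟩ a3 =>
      ⟨c, b1.lt_iff_lt.1 (a1 ▸ a3 : β k + 1 ≤ β c), a2⟩⟩⟩

def Tk : Type := I → ℕ

def Stp (n : I → ℕ) (S : Set (Set I)) (Y : Set I) : Prop := Pos Y ∧ (∀ X ∈ S, Sub Y X) ∧
  ((∃ k, ∀ i ∈ Y, i.2.getD k 0 ≤ n i) ∨ ∃ f : ℕ → ℕ, ∀ i ∈ Y, n i ≤ f i.1)

theorem stp (n : I → ℕ) {S : Set (Set I)} (h1 : S.Countable) (h2 : ∀ X ∈ S, Pos X)
    (h3 : ∀ X ∈ S, ∀ Y ∈ S, Sub X Y ∨ Sub Y X) : ∃ Y, Stp n S Y := by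
  obtain ⟨z, hz⟩ := (h1.insert Set.univ).exists_eq_range (insert_nonempty _ _)
  have z1 : ∀ k, z k = Set.univ ∨ z k ∈ S := fun k => (hz ▸ ⟨k, rfl⟩ : z k ∈ insert Set.univ S)
  have z2 : ∀ c, ∃ X ∈ insert Set.univ S, Sub X (⋂ k < c, z k) := fun c => by
    induction c with
    | zero => exact ⟨_, Or.inl rfl, 0, by simp⟩
    | succ c ih =>
      obtain ⟨X, a1, m, a2⟩ := ih
      have a3 : Sub X (z c) ∨ Sub (z c) X := by
        rcases z1 c with e | e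
        · exact Or.inl ⟨0, by simp [e]⟩
        · exact a1.elim (fun f => Or.inr ⟨0, by simp [f]⟩) fun f => h3 _ f _ e
      rw [biInter_lt_succ]
      rcases a3 with ⟨d, e⟩ | ⟨d, e⟩
      · exact ⟨X, a1, max m d, fun i b1 b2 => ⟨a2 i b1 (le_of_max_le_left b2),
          e i b1 (le_of_max_le_right b2)⟩⟩
      · exact ⟨z c, z1 c, max m d, fun i b1 b2 => ⟨a2 i (e i b1 (le_of_max_le_right b2))
          (le_of_max_le_left b2), b1⟩⟩
  have z3 : ∀ c, Pos (⋂ k < c, z k) := fun c => let ⟨X, a1, a2⟩ := z2 c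
    Pos.sub (a1.elim (fun e d => ⟨d, le_rfl, [], l_and (fun l _ _ => e ▸ mem_univ _) _ _
      (l_const d []) (l_const d [])⟩) (h2 X)) a2
  have z4 : ∀ {W : Set I}, Pos W → ∀ c b, ∃ j, b ≤ j ∧ ∃ t, L c t fun l => ((j, l) : I) ∈ W :=
    fun h c b => let ⟨j, a1, t, a2⟩ := h (max c b)
      ⟨j, le_of_max_le_right a1, l_down (le_max_left c b) t a2⟩
  obtain ⟨Y, y1, y2⟩ := diag (Z := fun c => ⋂ k < c, z k) fun c b => z4 (z3 c) c b
  have y4 : ∀ X ∈ S, ∀ W ⊆ Y, Sub W X := fun X hX W hW => by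
    obtain ⟨k, rfl⟩ := (hz ▸ Or.inr hX : X ∈ range z)
    exact (y2 k).imp fun m hm i b1 b2 => let ⟨c, b3, b4⟩ := hm i (hW b1) b2
      mem_iInter₂.1 b4 k b3
  by_cases h : ∃ k, Pos (Y ∩ {i | i.2.getD k 0 ≤ n i})
  · obtain ⟨k, hk⟩ := h
    exact ⟨_, hk, fun X hX => y4 X hX _ inter_subset_left, Or.inl ⟨k, fun i hi => hi.2⟩⟩
  have a1 : ∀ c b, ∃ j, b ≤ j ∧ ∃ v t, L c t fun l => ((j, l) : I) ∈ Y ∧ n (j, l) ≤ v :=
    fun c b => by
      obtain ⟨j, b1, t, b2⟩ := z4 ((y1.or _).resolve_left fun e => h ⟨c, e⟩) c b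
      exact ⟨j, b1, t.getD 0 0, t, l_and (fun l b3 b4 => ⟨b3.1, by
        have := b4 0
        rw [zero_add] at this
        exact this ▸ (not_le.1 b3.2).le⟩) _ _ b2 (l_const c t)⟩
  choose j j1 v j2 using a1
  refine ⟨Y ∩ {i | n i ≤ (Finset.range (i.1 + 1)).sup fun c => v c c}, fun c => ⟨j c c, j1 c c,
    (j2 c c).imp fun t e => l_and (fun l a _ => ⟨a.1, a.2.trans (Finset.le_sup
      (f := fun c => v c c) (Finset.mem_range.2 (Nat.lt_succ_of_le (j1 c c))))⟩) _ _ e e⟩,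
    fun X hX => y4 X hX _ inter_subset_left, Or.inr ⟨fun j => (Finset.range (j + 1)).sup fun c => v c c,
      fun i hi => hi.2⟩⟩

theorem ex (hCH : continuum.{0} = aleph 1) : ∃ F : Ultrafilter I, (∀ X ∈ F, Pos X) ∧
    ∀ n : I → ℕ, (∃ k, ∀ᶠ i in F, i.2.getD k 0 ≤ n i) ∨ ∃ f : ℕ → ℕ, ∀ᶠ i in F, n i ≤ f i.1 := by
  obtain ⟨lo, _, ho⟩ := exists_ord_eq_type_lt Tk
  have hI : #Tk = aleph 1 := by rw [← hCH, Tk]; simp
  have h0 : ∀ j : Tk, (Iio j).Countable := fun j =>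
    (countable_iff_lt_aleph_one _).2 (hI ▸ mk_Iio_lt j ho)
  obtain ⟨p, hp⟩ := Lib.helper32.NormalWL.rec_ex (T := Tk) (Y := Set I)
    (fun j f y => (∀ x ∈ f '' Iio j, Pos x) →
      (∀ x ∈ f '' Iio j, ∀ y ∈ f '' Iio j, Sub x y ∨ Sub y x) → Stp j (f '' Iio j) y)
    (fun j f => by
      by_cases h1 : ∀ x ∈ f '' Iio j, Pos x
      · by_cases h2 : ∀ x ∈ f '' Iio j, ∀ y ∈ f '' Iio j, Sub x y ∨ Sub y x
        · exact (stp j ((h0 j).image f) h1 h2).imp fun _ h _ _ => h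
        · exact ⟨∅, fun _ h => absurd h h2⟩
      · exact ⟨∅, fun h => absurd h h1⟩)
    fun j f g y e h => by rwa [← image_congr (s := Iio j) (f := f) (g := g) e]
  have h1 : ∀ j : Tk, Stp j (p '' Iio j) (p j) := fun j => by
    induction j using WellFoundedLT.induction with
    | ind j ih =>
      refine hp j (by rintro _ ⟨i, hi, rfl⟩; exact (ih i hi).1) ?_
      rintro _ ⟨i, hi, rfl⟩ _ ⟨l, hl, rfl⟩
      rcases lt_trichotomy i l with e | rfl | e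
      · exact Or.inr ((ih l hl).2.1 _ ⟨i, e, rfl⟩)
      · exact Or.inl ⟨0, fun _ h _ => h⟩
      · exact Or.inl ((ih i hi).2.1 _ ⟨l, e, rfl⟩)
  have h2 : ∀ i j, i ≤ j → Sub (p j) (p i) := fun i j e => e.eq_or_lt.elim
    (fun e => ⟨0, fun _ h _ => e ▸ h⟩) fun e => (h1 j).2.1 _ ⟨i, e, rfl⟩
  have h3 : ∀ i j Z, i ≤ j → ¬ Pos (p i \ Z) → ¬ Pos (p j \ Z) := fun i j Z e a b =>
    a (b.sub ((h2 i j e).imp fun m hm x hx c => ⟨hm x hx.1 c, hx.2⟩))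
  let G : Filter I :=
    { sets := {Z | ∃ j, ¬ Pos (p j \ Z)}
      univ_sets := ⟨(fun _ => 0 : I → ℕ), fun e => by
        obtain ⟨j, -, t, e⟩ := e 0
        exact e.2 trivial⟩
      sets_of_superset := fun ⟨j, a⟩ e => ⟨j, fun b => a (b.sub ⟨0, fun x hx _ =>
        ⟨hx.1, fun c => hx.2 (e c)⟩⟩)⟩
      inter_sets := fun {Z W} ⟨i, a⟩ ⟨j, b⟩ => ⟨max i j, fun e => (e.or Z).elim
        (fun f => h3 _ _ W (le_max_right i j) b (f.sub ⟨0, fun x hx _ =>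
          ⟨hx.1.1, fun c => hx.1.2 ⟨hx.2, c⟩⟩⟩))
        fun f => h3 _ _ Z (le_max_left i j) a (f.sub ⟨0, fun x hx _ => ⟨hx.1.1, hx.2⟩⟩)⟩ }
  have : G.NeBot := ⟨fun e => by
    obtain ⟨j, hj⟩ : ∅ ∈ G := e ▸ mem_bot
    exact hj (by simpa using (h1 j).1)⟩
  have h4 : ∀ j, p j ∈ Ultrafilter.of G := fun j => Ultrafilter.of_le G ⟨j, fun e => by
    obtain ⟨j, -, t, e⟩ := e 0
    exact e.2 e.1⟩
  refine ⟨Ultrafilter.of G, fun X hX => by_contra fun e => Ultrafilter.compl_notMem_iff.2 hX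
    (Ultrafilter.of_le G ⟨(fun _ => 0 : I → ℕ), fun f => e (f.sub ⟨0, fun x hx _ =>
      not_not.1 hx.2⟩)⟩), fun n => (h1 n).2.2.imp (fun ⟨k, hk⟩ => ⟨k, mem_of_superset (h4 n) hk⟩)
        fun ⟨f, hf⟩ => ⟨f, mem_of_superset (h4 n) hf⟩⟩

theorem result (hCH : continuum.{0} = aleph 1) : ∃ (F : Ultrafilter ℕ) (P : ℕ → Set ℕ),
    (∀ i : ℕ, {i} ∉ F) ∧ (∀ i, ∃! j, i ∈ P j) ∧ (∀ j, (P j).Nonempty ∧ P j ∉ F) ∧
      ¬ Internal F (cut F P) ∧ ∃ A : ℕ → Set (Germ (F : Filter ℕ) ℕ),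
        (∀ k, Internal F (A k)) ∧ cut F P = ⋂ k, A k := by
  classical
  obtain ⟨G, g1, g2⟩ := ex hCH
  let e : I ≃ ℕ := Denumerable.eqv (ℕ × List ℕ)
  let F : Ultrafilter ℕ := G.map e
  let P : ℕ → Set ℕ := fun j => {i | (e.symm i).1 = j}
  have f1 : ∀ j, P j ∉ F := fun j h => by
    obtain ⟨k, a1, t, a2⟩ := g1 _ h (j + 1)
    obtain ⟨t, a3⟩ := l_down (Nat.zero_le _) t a2
    have : (e.symm (e (k, t))).1 = j := a3
    rw [e.symm_apply_apply] at this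
    have : k = j := this
    omega
  have f2 : ∀ (k : ℕ) (f : ℕ → ℕ), ∀ᶠ i in F, f (e.symm i).1 < (e.symm i).2.getD k 0 :=
    fun k f => by
      by_contra h
      obtain ⟨j, -, t, a⟩ := g1 _ (Ultrafilter.eventually_not.2 h) (k + 1)
      obtain ⟨t, a3⟩ := l_down (Nat.zero_le _) t (l_and (Z := fun _ => False) (fun l b c =>
        b (by simpa using c)) _ _ a (l_big (f j) k t))
      exact a3
  have f3 : ∀ n : ℕ → ℕ, (∀ j, BddAbove (n '' P j)) → ∃ f : ℕ → ℕ, ∀ i, n i ≤ f (e.symm i).1 :=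
    fun n h => by
      choose f hf using h
      exact ⟨f, fun i => hf _ ⟨i, rfl, rfl⟩⟩
  refine ⟨F, P, fun i h => f1 _ (mem_of_superset h (singleton_subset_iff.2 rfl)),
    fun i => ⟨_, rfl, fun j h => h.symm⟩, fun j => ⟨⟨e (j, []), congrArg Prod.fst (e.symm_apply_apply _)⟩, f1 j⟩,
    fun ⟨A, hA⟩ => ?_, fun k => {x | ∃ n : ℕ → ℕ, x = (n : Germ (F : Filter ℕ) ℕ) ∧
      {i | n i ∈ Iio ((e.symm i).2.getD k 0)} ∈ F}, fun k => ⟨_, rfl⟩, Subset.antisymm ?_ ?_⟩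
  · have a1 : ∀ n : ℕ → ℕ, (∀ j, BddAbove (n '' P j)) → ∀ᶠ i in F, n i ∈ A i := fun n h => by
      obtain ⟨m, b1, b2⟩ := hA.subset ⟨n, rfl, h⟩
      exact ((Germ.coe_eq.1 b1).and b2).mono fun i c => c.1 ▸ c.2
    obtain ⟨m, b1, b2⟩ := hA.symm.subset ⟨fun i => Nat.findGreatest (· ∈ A i)
      ((e.symm i).2.getD 0 0), rfl, (a1 (fun _ => 0) fun j => ⟨0, by
        rintro _ ⟨_, _, rfl⟩; exact le_rfl⟩).mono fun i c =>
          Nat.findGreatest_spec (P := (· ∈ A i)) (Nat.zero_le _) c⟩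
    obtain ⟨f, hf⟩ := f3 m b2
    obtain ⟨i, c1, c2, c3⟩ := ((Germ.coe_eq.1 b1).and ((f2 0 f).and (a1 (fun i => m i + 1)
      fun j => ⟨f j + 1, by
        rintro _ ⟨i, rfl, rfl⟩; exact Nat.succ_le_succ (hf i)⟩))).exists
    exact (Nat.le_findGreatest (P := (· ∈ A i)) ((hf i).trans_lt c2) c3).not_gt
      (Nat.lt_succ_of_le c1.le)
  · rintro _ ⟨n, rfl, h⟩
    obtain ⟨f, hf⟩ := f3 n h
    exact mem_iInter.2 fun k => ⟨n, rfl, (f2 k f).mono fun i c => (hf i).trans_lt c⟩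
  · intro x hx
    induction x using Germ.inductionOn with
    | h n =>
      rcases g2 (n ∘ e) with ⟨k, hk⟩ | ⟨f, hf⟩
      · obtain ⟨m, b1, b2⟩ := mem_iInter.1 hx k
        have b3 : ∀ᶠ i in F, (e.symm i).2.getD k 0 ≤ n i := hk.mono fun i c => by simpa using c
        obtain ⟨i, c1, c2, c3⟩ := ((Germ.coe_eq.1 b1).and (b3.and b2)).exists
        exact absurd (c1 ▸ c2) (not_le.2 c3)
      · have b3 : ∀ᶠ i in F, n i ≤ f (e.symm i).1 := hf.mono fun i c => by simpa using c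
        refine ⟨fun i => min (n i) (f (e.symm i).1), Germ.coe_eq.2 (b3.mono fun i c =>
          (min_eq_left c).symm), fun j => ⟨f j, ?_⟩⟩
        rintro _ ⟨i, rfl, rfl⟩
        exact min_le_right _ _

end Pool.Agent.Results.MP_90cb67_lc.Delta
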